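import Pool.Agent.L0h80.F3.Gen

/-!
# The second family: the product of the symbols, and the quadratic Hecke characters
-/

set_option autoImplicit false
set_option linter.unusedSectionVars false

namespace Pool.Agent.L0h80.F3

open H667R3 Pool.Agent.W192.HK Pool.Agent.TH936.CM
open Pool.Agent.TH936.PU hiding pf
open Pool.Agent.Y696 Pool.Agent.Y715.T.Lat
open Pool.Agent.L0h86.F3
open Pool.Agent.L0h4.T3 (cj_cj cj_mul cj_pow cj_one cj_sub dvd_cj cj_two cj_nat)
open Pool.Agent.Y698.SG (ix)

/-- Euler's criterion: comparison with the Legendre symbol -/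
lemma leg_eq {F : Type*} [Field F] [Fintype F] [DecidableEq F] {p : ℕ} [Fact p.Prime] (hp2 : p ≠ 2)
    [CharP F p] {y : F} {n : ℤ} (h : y ^ (Fintype.card F / 2) = (n : F) ^ (p / 2)) :
    quadraticChar F y = legendreSym p n := by
  have hch : ringChar F ≠ 2 := by
    rw [ringChar.eq F p]
    exact hp2
  have h1 : ((quadraticChar F y : ℤ) : F) = ((legendreSym p n : ℤ) : F) := by
    rw [quadraticChar_eq_pow_of_char_ne_two' hch, h]
    have h2 := congrArg (ZMod.castHom (dvd_refl p) F) (legendreSym.eq_pow p n)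
    rw [map_intCast, map_pow, map_intCast] at h2
    exact h2.symm
  have h3 : (p : ℤ) ∣ quadraticChar F y - legendreSym p n := by
    rw [← CharP.intCast_eq_zero_iff F p]
    push_cast
    rw [h1, sub_self]
  have h4 : ∀ (G : Type _) [Field G] [Fintype G] [DecidableEq G] (z : G),
      quadraticChar G z = 0 ∨ quadraticChar G z = 1 ∨ quadraticChar G z = -1 := by
    intro G _ _ _ z
    by_cases hz : z = 0
    · left; rw [hz, MulChar.map_zero]
    · exact Or.inr (quadraticChar_dichotomy hz)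
  have h5 := h4 F y
  have h6 : legendreSym p n = 0 ∨ legendreSym p n = 1 ∨ legendreSym p n = -1 := by
    have : ∀ z : ZMod p, quadraticChar (ZMod p) z = 0 ∨ quadraticChar (ZMod p) z = 1 ∨
        quadraticChar (ZMod p) z = -1 := by
      intro z
      by_cases hz : z = 0
      · left; rw [hz, MulChar.map_zero]
      · exact Or.inr (quadraticChar_dichotomy hz)
    exact this _
  have hp3 : (3 : ℤ) ≤ p := by
    have := (Fact.out : p.Prime).two_le
    have : 3 ≤ p := by omega
    exact_mod_cast this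
  obtain ⟨k, hk⟩ := h3
  have hk0 : k = 0 := by
    rcases h5 with h5 | h5 | h5 <;> rcases h6 with h6 | h6 | h6 <;> rw [h5, h6] at hk <;> nlinarith
  rw [hk0, mul_zero] at hk
  linarith

/-- the residue field -/
lemma res {ϖ : eis} (h : Prime ϖ) {p : ℕ} (hp : p.Prime) (hd : ϖ ∣ (p : eis)) :
    ∃ (F : Type) (_ : Field F) (_ : Fintype F) (_ : DecidableEq F) (φ : eis →+* F),
      CharP F p ∧ Fintype.card F = nE ϖ ∧ Function.Surjective φ ∧ (∀ x, φ x = 0 ↔ x ∈ sp ϖ) ∧
      (∀ x, sy ϖ x = ((quadraticChar F (φ x) : ℤ) : ℂ)) := by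
  classical
  have hm := maximal_sp h.irreducible
  have f1 := fin_quot h.ne_zero
  let i1 : Field (eis ⧸ sp ϖ) := Ideal.Quotient.field (sp ϖ)
  let i2 : Fintype (eis ⧸ sp ϖ) := Fintype.ofFinite _
  have hs : Function.Surjective (Ideal.Quotient.mk (sp ϖ)) := Ideal.Quotient.mk_surjective
  have hk : ∀ x, Ideal.Quotient.mk (sp ϖ) x = 0 ↔ x ∈ sp ϖ := fun x =>
    Ideal.Quotient.eq_zero_iff_mem
  refine ⟨eis ⧸ sp ϖ, i1, i2, inferInstance, Ideal.Quotient.mk (sp ϖ), ?_, ?_, hs, hk,
    fun x => sy_eq _ hs hk x⟩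
  · have h0 : ((p : ℕ) : eis ⧸ sp ϖ) = 0 := by
      have h1 : Ideal.Quotient.mk (sp ϖ) ((p : ℕ) : eis) = 0 := by
        rw [hk, Ideal.mem_span_singleton]
        exact hd
      rwa [map_natCast] at h1
    exact (CharP.charP_iff_prime_eq_zero hp).2 h0
  · unfold nE
    rw [Nat.card_eq_fintype_card]

lemma norm_map {F : Type*} [Field F] (φ : eis →+* F) (x : eis) :
    (((nE x : ℕ) : ℤ) : F) = φ x * φ (cj x) := by
  rw [← map_mul, ← nE_cj, map_natCast]
  norm_cast

/-- split primes -/
lemma sy_split {p : ℕ} (hp : p.Prime) (hp2 : p ≠ 2) {ϖ : eis} (h : ϖ * cj ϖ = (p : eis)) (x : eis) :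
    sy ϖ x * sy (cj ϖ) x = (jacobiSym (nE x) p : ℂ) := by
  have _ : Fact p.Prime := ⟨hp⟩
  have hpr := prime_of_norm hp h
  obtain ⟨F, _, _, _, φ, hch, hcard, -, -, hsy⟩ := res hpr hp (by rw [← h]; exact Dvd.intro _ rfl)
  have h1 : sy (cj ϖ) x = sy ϖ (cj x) := by
    rw [← sy_cj ϖ (cj x), cj_cj]
  rw [h1, hsy, hsy, ← Int.cast_mul, ← map_mul, ← norm_map]
  congr 1
  rw [← jacobiSym.legendreSym.to_jacobiSym]
  apply leg_eq hp2
  rw [hcard, nE_of h]

/-- the Frobenius at the inert primes -/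
lemma frob {q : ℕ} (hq : q.Prime) (h3 : q % 3 = 2) {F : Type*} [Field F] [CharP F q]
    (φ : eis →+* F) (x : eis) : φ x ^ q = φ (cj x) := by
  have _ : Fact q.Prime := ⟨hq⟩
  obtain ⟨a, b, rfl⟩ := ez_ex x
  have hint : ∀ n : ℤ, (n : F) ^ q = (n : F) := by
    intro n
    have h1 := congrArg (ZMod.castHom (dvd_refl q) F) (ZMod.pow_card (n : ZMod q))
    rwa [map_pow, map_intCast] at h1
  have hom : (omr : eis) ^ q = omr ^ 2 := by
    have h1 : q = 3 * (q / 3) + 2 := by omega
    rw [h1, pow_add, pow_mul, omr_cube, one_pow, one_mul]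
  have h1 : φ (ez a b) = (a : F) + (b : F) * φ omr := by
    unfold ez
    rw [map_add, map_mul, map_intCast, map_intCast]
  have h2 : φ (cj (ez a b)) = (a : F) + (b : F) * φ omr ^ 2 := by
    rw [cj_ez]
    unfold ez
    rw [map_add, map_mul, map_intCast, map_intCast]
    have h4 := congrArg φ omr_sq
    rw [map_add, map_add, map_pow, map_one, map_zero] at h4
    push_cast
    linear_combination -(b : F) * h4
  rw [h1, h2, add_pow_char, mul_pow, hint, hint, ← map_pow, ← map_pow, hom]

/-- inert primes -/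
lemma sy_inert {q : ℕ} (h : InQ q) (x : eis) :
    sy (-(q : eis)) x = (jacobiSym (nE x) q : ℂ) := by
  have hq := h.pr
  have _ : Fact q.Prime := ⟨hq⟩
  have hq2 : q ≠ 2 := by
    have := h.odd
    omega
  have hpr : Prime (-(q : eis)) := (PX_inert h).pr
  obtain ⟨F, _, _, _, φ, hch, hcard, -, -, hsy⟩ := res hpr hq ⟨-1, by ring⟩
  rw [hsy]
  congr 1
  rw [← jacobiSym.legendreSym.to_jacobiSym]
  apply leg_eq hq2
  have hn : nE (-(q : eis)) = q ^ 2 := by
    apply nE_of
    rw [cj_neg, cj_nat]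
    push_cast
    ring
  rw [norm_map φ x, ← frob hq h.m3 φ x, ← pow_succ', ← pow_mul, hcard, hn]
  congr 1
  obtain ⟨k, hk⟩ : ∃ k, q = 2 * k + 1 := ⟨q / 2, by have := h.odd; omega⟩
  rw [hk]
  have e1 : (2 * k + 1) / 2 = k := by omega
  have e2 : (2 * k + 1) ^ 2 = 2 * ((2 * k + 1 + 1) * k) + 1 := by ring
  rw [e1, e2]
  omega

lemma jac_prod (n : ℤ) (S : Finset ℕ) (hS : ∀ q ∈ S, q ≠ 0) :
    jacobiSym n (∏ q ∈ S, q) = ∏ q ∈ S, jacobiSym n q := by
  classical
  induction S using Finset.induction_on with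
  | empty => simp
  | insert q S hq ih =>
    rw [Finset.prod_insert hq, Finset.prod_insert hq,
      jacobiSym.mul_right' n (hS q (Finset.mem_insert_self _ _))
      (Finset.prod_ne_zero_iff.2 fun p hp => hS p (Finset.mem_insert_of_mem hp)),
      ih fun p hp => hS p (Finset.mem_insert_of_mem hp)]

section
variable {Q P : Finset ℕ} {ϖ : ℕ → eis}

/-- the product of the symbols -/
lemma prod_sy (h : Dt Q P ϖ) {D : ℕ} (hD : D = ∏ q ∈ Q ∪ P, q) (x : eis) :
    ∏ i ∈ ix Q P, sy (pf Q ϖ i) x = XD D (sp x) := by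
  have hdj := disj h.q h.p
  have hd := Finset.disjoint_left.1 hdj
  have hne : ∀ q ∈ Q ∪ P, q ≠ 0 := by
    intro q hq
    rcases Finset.mem_union.1 hq with h1 | h1
    · exact (h.q q h1).pr.ne_zero
    · exact (h.p q h1).pr.ne_zero
  rw [prod_ix hdj]
  unfold XD
  have e0 : (Nat.card (eis ⧸ sp x)) = nE x := rfl
  rw [e0, hD, jac_prod _ _ hne, Finset.prod_union hdj]
  push_cast
  congr 1
  · refine Finset.prod_congr rfl fun q hq => ?_
    rw [pf_Q hq, sy_inert (h.q q hq)]
  · refine Finset.prod_congr rfl fun p hp => ?_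
    have hq : p ∉ Q := fun h1 => hd h1 hp
    have hp1 := h.p p hp
    rw [pf_f hq, pf_t hq]
    exact sy_split hp1.pr (fun h2 => by
      have := hp1.m3
      rw [h2] at this
      norm_num at this) (h.nm p hp) x

end

/-- M6: conjugation, and the properties of the generators -/
theorem t_GEN : S_GEN := fun _ _ _ _ h hD => ⟨fx h, prod_pf h hD, sum_bt h hD,
  fun x y => sy_cj x y, fun _ hx => bt_cj hx, fun x => prod_sy h hD x⟩

/-- the choice of the generators -/
lemma exists_Dt {Q P : Finset ℕ} (hQ : ∀ q ∈ Q, InQ q) (hP : ∀ p ∈ P, SpQ p) :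
    ∃ ϖ : ℕ → eis, Dt Q P ϖ := by
  classical
  choose! f hf using fun p (hp : p ∈ P) => split_prime (hP p hp).pr (hP p hp).m3
  refine ⟨f, hQ, hP, fun p hp => ?_, fun p hp => (hf p hp).1⟩
  have h1 := (hf p hp).2
  rw [Ideal.mem_span_singleton'] at h1
  obtain ⟨u, hu⟩ := h1
  exact ⟨u, by linear_combination -hu⟩

lemma exists_gen (I : Ideal eis) : ∃ g : eis, I = sp g :=
  ⟨_, (Submodule.IsPrincipal.span_singleton_generator I).symm⟩

/-- M2: the quadratic characters -/
theorem t_HCD : S_HCD := by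
  classical
  intro Q P D hQ hP hD hne
  obtain ⟨ϖ, h⟩ := exists_Dt hQ hP
  have hfx := fx h
  have hX := fun x => (prod_sy h hD x).symm
  set S := ix Q P with hS
  set π := pf Q ϖ with hπ
  have hSne : S.Nonempty := by
    obtain ⟨q, hq⟩ := hne
    refine ⟨(q, false), mem_ix.2 ?_⟩
    rcases Finset.mem_union.1 hq with h1 | h1
    · exact Or.inl ⟨rfl, h1⟩
    · exact Or.inr h1
  have hspD : (sp (D : eis) : Ideal eis) = sp (∏ i ∈ S, π i) := by
    rcases prod_pf h hD with ⟨h1, -⟩ | ⟨h1, -⟩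
    · rw [h1]
    · rw [h1]
      ext y
      rw [Ideal.mem_span_singleton, Ideal.mem_span_singleton, neg_dvd]
  have hpr : ∀ i ∈ S, Prime (π i) := fun i hi => (hfx.pd i hi).pr
  have hval : ∀ x : eis, XD D (sp x) ≠ 0 ↔ ∀ i ∈ S, x ∉ sp (π i) := by
    intro x
    rw [hX, Finset.prod_ne_zero_iff]
    refine forall₂_congr fun i hi => ?_
    rcases sy_val (π i) x with ⟨h1, h2⟩ | ⟨h1, h2 | h2⟩
    · simp [h1, h2]
    · simp [h1, h2]
    · simp [h1, h2]
  have hcop : ∀ x : eis, IsCoprime (sp x) (sp (D : eis)) ↔ ∀ i ∈ S, x ∉ sp (π i) := by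
    intro x
    rw [hspD, Ideal.isCoprime_span_singleton_iff, IsCoprime.prod_right_iff]
    refine forall₂_congr fun i hi => ?_
    rw [isCoprime_comm, (hpr i hi).irreducible.coprime_iff_not_dvd, Ideal.mem_span_singleton]
  refine ⟨?_, ?_, ?_, ?_, ?_⟩
  · rw [hspD, Ne, Ideal.span_singleton_eq_bot, Finset.prod_eq_zero_iff]
    rintro ⟨i, hi, h0⟩
    exact (hpr i hi).ne_zero h0
  · intro I J
    obtain ⟨x, rfl⟩ := exists_gen I
    obtain ⟨y, rfl⟩ := exists_gen J
    rw [Ideal.span_singleton_mul_span_singleton, hX, hX, hX, ← Finset.prod_mul_distrib]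
    exact Finset.prod_congr rfl fun i hi => sy_mul' (hpr i hi) x y
  · intro I
    obtain ⟨x, rfl⟩ := exists_gen I
    have h1 := hval x
    have h2 := hcop x
    constructor
    · intro h0
      right
      rw [h2, ← h1]
      exact fun h3 => h3 h0
    · intro h0
      by_contra h3
      have h4 := h1.1 h3
      rcases h0 with h5 | h5
      · rw [Ideal.span_singleton_eq_bot] at h5
        obtain ⟨i, hi⟩ := hSne
        apply h4 i hi
        rw [h5]
        exact Submodule.zero_mem _
      · exact h5 (h2.2 h4)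
  · intro α _ h1
    rw [hX, pow_zero]
    refine Finset.prod_eq_one fun i hi => ?_
    have h2 : α - 1 ∈ sp (π i) := by
      rw [hspD, Ideal.mem_span_singleton] at h1
      rw [Ideal.mem_span_singleton]
      exact (Finset.dvd_prod_of_mem π hi).trans h1
    rw [sy_per (π i) α 1 h2]
    have h3 : (1 : eis) ∉ sp (π i) := by
      rw [Ideal.mem_span_singleton]
      exact fun h4 => (hpr i hi).not_isUnit (isUnit_of_dvd_one h4)
    unfold sy
    rw [if_neg h3, map_one, if_pos ⟨1, by ring⟩]
  · intro q' hq'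
    obtain ⟨g, rfl⟩ := exists_gen q'
    have hnd : ¬ (∏ i ∈ S, π i) ∣ g := by
      intro h1
      apply not_le_of_gt hq'
      rw [hspD, Ideal.span_singleton_le_span_singleton]
      exact h1
    have hpair : (S : Set (ℕ × Bool)).Pairwise fun i j => IsCoprime (π i) (π j) := by
      intro i hi j hj hij
      rw [(hpr i hi).irreducible.coprime_iff_not_dvd]
      have := hfx.ne j hj i hi (Ne.symm hij)
      rwa [Ideal.mem_span_singleton] at this
    obtain ⟨i, hi, hig⟩ : ∃ i ∈ S, ¬ π i ∣ g := by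
      by_contra hcon
      push Not at hcon
      exact hnd (Finset.prod_dvd_of_coprime hpair hcon)
    -- a nonsquare
    obtain ⟨F, _, _, _, φ, hch, hcard, hsur, hker, hsy⟩ := res (hpr i hi) (ix_prime h hi)
      (ix_dvd h hi)
    have hpi := ix_prime h hi
    have hi2 : ringChar F ≠ 2 := by
      rw [ringChar.eq F i.1]
      rcases ix_cases h hi with ⟨h1, -, -⟩ | ⟨h1, -, -⟩ | ⟨h1, -, -⟩
      · have := (h.q _ h1).odd
        omega
      · have := (h.p _ h1).m3
        omega
      · have := (h.p _ h1).m3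
        omega
    obtain ⟨z, hz⟩ := FiniteField.exists_nonsquare hi2
    obtain ⟨c, rfl⟩ := hsur z
    have hc : sy (π i) c = -1 := by
      rw [hsy, quadraticChar_neg_one_iff_not_isSquare.2 hz]
      norm_num
    -- coprimality
    have hcg : IsCoprime (π i) (g * ∏ j ∈ S.erase i, π j) := by
      apply IsCoprime.mul_right
      · rwa [(hpr i hi).irreducible.coprime_iff_not_dvd]
      · exact IsCoprime.prod_right fun j hj => hpair hi (Finset.mem_of_mem_erase hj)
          (Finset.ne_of_mem_erase hj).symm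
    obtain ⟨u, w, huw⟩ := hcg
    set m : eis := g * ∏ j ∈ S.erase i, π j with hm
    -- `α = 1` modulo `m` and `α = c` modulo `π i`
    set α : eis := u * π i + c * (w * m) with hα
    have a1 : α - 1 ∈ (sp m : Ideal eis) := by
      rw [Ideal.mem_span_singleton']
      refine ⟨(c - 1) * w, ?_⟩
      rw [hα]
      linear_combination -huw
    have a2 : α - c ∈ (sp (π i) : Ideal eis) := by
      rw [Ideal.mem_span_singleton']
      refine ⟨u * (1 - c), ?_⟩
      rw [hα]
      linear_combination (-c) * huw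
    have hXα : XD D (sp α) = -1 := by
      rw [hX, ← Finset.mul_prod_erase S _ hi, sy_per (π i) α c a2, hc]
      have h1 : ∏ j ∈ S.erase i, sy (π j) α = 1 := by
        refine Finset.prod_eq_one fun j hj => ?_
        have hjS := Finset.mem_of_mem_erase hj
        have h2 : α - 1 ∈ sp (π j) := by
          rw [Ideal.mem_span_singleton] at a1 ⊢
          refine Dvd.dvd.trans ?_ a1
          rw [hm]
          exact Dvd.dvd.mul_left (Finset.dvd_prod_of_mem π hj) _
        rw [sy_per (π j) α 1 h2]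
        have h3 : (1 : eis) ∉ sp (π j) := by
          rw [Ideal.mem_span_singleton]
          exact fun h4 => (hpr j hjS).not_isUnit (isUnit_of_dvd_one h4)
        unfold sy
        rw [if_neg h3, map_one, if_pos ⟨1, by ring⟩]
      rw [h1, mul_one]
    have hne0 : XD D (sp α) ≠ 0 := by
      rw [hXα]
      norm_num
    have hall := (hval α).1 hne0
    refine ⟨α, ?_, ?_, (hcop α).2 hall, ?_⟩
    · intro h0
      apply hall i hi
      rw [h0]
      exact Submodule.zero_mem _
    · rw [Ideal.mem_span_singleton] at a1 ⊢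
      exact (Dvd.intro _ rfl).trans a1
    · rw [hXα, pow_zero]
      norm_num

end Pool.Agent.L0h80.F3
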