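import Pool.Agent.L0h4.T3.Cnt

/-!
# The prime elements of the Eisenstein integers (light version of `Pool/Agent/L0h4/T3/Pri.lean`)
-/

set_option autoImplicit false
set_option linter.unusedSectionVars false

namespace Pool.Agent.L0h80.F3

open Pool.Agent.W192.HK Pool.Agent.Y696 Pool.Agent.Y715.T.Lat
open Pool.Agent.L0h4.T3 (cj_cj cj_mul cj_pow cj_one cj_sub dvd_cj cj_two cj_nat cop_two_la)

lemma norm_cj (x : eis) {n : ℕ} (h : Complex.normSq (x : ℂ) = n) : x * cj x = (n : eis) := by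
  apply coe_inj'
  rw [cj_mul_coe, h]
  push_cast
  rfl

lemma norm_of_cj {x : eis} {n : ℕ} (h : x * cj x = (n : eis)) : Complex.normSq (x : ℂ) = n := by
  have h1 := congrArg (fun t : eis => (t : ℂ)) h
  rw [cj_mul_coe] at h1
  push_cast at h1
  exact_mod_cast h1

lemma norm_prod {x y : eis} {a b n : ℕ} (ha : Complex.normSq (x : ℂ) = a)
    (hb : Complex.normSq (y : ℂ) = b) (h : x * y = (n : eis)) : a * b = n ^ 2 := by
  have h1 := congrArg (fun t : eis => Complex.normSq (t : ℂ)) h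
  push_cast at h1
  rw [Complex.normSq_mul, ha, hb] at h1
  have h2 : Complex.normSq ((n : ℂ)) = (n : ℝ) ^ 2 := by
    rw [Complex.normSq_natCast]
    ring
  rw [h2] at h1
  exact_mod_cast h1

lemma eis_nat_dvd {m n : ℕ} : ((m : ℕ) : eis) ∣ ((n : ℕ) : eis) ↔ m ∣ n := by
  constructor
  · rintro ⟨t, ht⟩
    obtain ⟨a, b, rfl⟩ := ez_ex t
    have h1 : ez (n : ℤ) 0 = ez (m : ℤ) 0 * ez a b := by
      rw [ez_int, ez_int]
      exact_mod_cast ht
    rw [ez_mul] at h1
    obtain ⟨h2, -⟩ := ez_inj h1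
    have h3 : (m : ℤ) ∣ (n : ℤ) := ⟨a, by rw [h2]; ring⟩
    exact_mod_cast h3
  · rintro ⟨k, rfl⟩
    exact ⟨(k : eis), by push_cast; rfl⟩

lemma nat_not_unit {p : ℕ} (hp : p.Prime) : ¬ IsUnit ((p : ℕ) : eis) := by
  intro h
  have h1 : ((p : ℕ) : eis) ∣ ((1 : ℕ) : eis) := by
    rw [Nat.cast_one]
    exact isUnit_iff_dvd_one.1 h
  rw [eis_nat_dvd] at h1
  exact hp.one_lt.ne' (Nat.dvd_one.1 h1)

/-- the norm of an element is `0` or `1` modulo three -/
lemma norm_mod_three {x : eis} {n : ℕ} (h : Complex.normSq (x : ℂ) = n) : n % 3 ≠ 2 := by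
  obtain ⟨s, t, hs⟩ := x.2
  rw [hs, norm_rep] at h
  have h1 : s ^ 2 - s * t + t ^ 2 = (n : ℤ) := by exact_mod_cast h
  have h2 : (s ^ 2 - s * t + t ^ 2) = (s + t) ^ 2 - 3 * (s * t) := by ring
  rw [h2] at h1
  generalize s * t = w at h1
  have h3 : (s + t) % 3 = 0 ∨ (s + t) % 3 = 1 ∨ (s + t) % 3 = 2 := by omega
  obtain ⟨k, hk⟩ : ∃ k, s + t = 3 * k + (s + t) % 3 := ⟨(s + t) / 3, by omega⟩
  rcases h3 with h3 | h3 | h3 <;> rw [h3] at hk <;> rw [hk] at h1
  · have : (3 * k + 0) ^ 2 = 3 * (3 * k ^ 2) := by ring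
    rw [this] at h1
    omega
  · have : (3 * k + 1) ^ 2 = 3 * (3 * k ^ 2 + 2 * k) + 1 := by ring
    rw [this] at h1
    omega
  · have : (3 * k + 2) ^ 2 = 3 * (3 * k ^ 2 + 4 * k + 1) + 1 := by ring
    rw [this] at h1
    omega

/-- the inert primes -/
lemma inert_prime {p : ℕ} (hp : p.Prime) (h3 : p % 3 = 2) : Prime ((p : ℕ) : eis) := by
  rw [← irreducible_iff_prime]
  refine ⟨nat_not_unit hp, fun a b hab => ?_⟩
  obtain ⟨m, hm⟩ := norm_int a
  obtain ⟨n, hn⟩ := norm_int b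
  have h1 := norm_prod hm hn hab.symm
  rw [isUnit_iff', isUnit_iff', hm, hn]
  have h2 : m ∣ p ^ 2 := Dvd.intro _ h1
  rcases (Nat.dvd_prime_pow hp).1 h2 with ⟨i, hi, rfl⟩
  have h4 : i = 0 ∨ i = 1 ∨ i = 2 := by omega
  rcases h4 with rfl | rfl | rfl
  · left; simp
  · exfalso
    rw [pow_one] at hm
    exact norm_mod_three hm h3
  · right
    have h5 : p ^ 2 * n = p ^ 2 * 1 := by rw [h1, mul_one]
    have h6 := Nat.eq_of_mul_eq_mul_left (pow_pos hp.pos 2) h5
    rw [h6]
    simp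

/-- the split primes -/
lemma split_prime {p : ℕ} (hp : p.Prime) (h3 : p % 3 = 1) :
    ∃ α : eis, α * cj α = (p : eis) ∧ α - 1 ∈ (sp (2 * la) : Ideal eis) := by
  have h0 : ∃ a : ZMod p, a ^ 2 + a + 1 = 0 := by
    have : Fact p.Prime := ⟨hp⟩
    have : Fact (Nat.Prime 3) := ⟨Nat.prime_three⟩
    obtain ⟨u, hu⟩ := exists_prime_orderOf_dvd_card (G := (ZMod p)ˣ) 3 (by
      rw [ZMod.card_units]
      omega)
    refine ⟨(u : ZMod p), ?_⟩
    have h3 : (u : ZMod p) ^ 3 = 1 := by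
      have := pow_orderOf_eq_one u
      rw [hu] at this
      have h6 := congrArg Units.val this
      rwa [Units.val_pow_eq_pow_val, Units.val_one] at h6
    have h4 : (u : ZMod p) ≠ 1 := by
      intro h
      have : u = 1 := Units.ext h
      rw [this, orderOf_one] at hu
      norm_num at hu
    have h5 : ((u : ZMod p) - 1) * ((u : ZMod p) ^ 2 + (u : ZMod p) + 1) = 0 := by
      linear_combination h3
    exact (mul_eq_zero.1 h5).resolve_left (sub_ne_zero.2 h4)
  obtain ⟨a, ha⟩ := h0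
  obtain ⟨x, rfl⟩ : ∃ x : ℤ, (x : ZMod p) = a := ZMod.intCast_surjective a
  have h1 : (p : ℤ) ∣ x ^ 2 + x + 1 := by
    rw [← ZMod.intCast_zmod_eq_zero_iff_dvd]
    push_cast
    exact ha
  have hnp : ¬ Prime ((p : ℕ) : eis) := by
    intro hpr
    obtain ⟨t, ht⟩ := h1
    have h2 : ((p : ℕ) : eis) ∣ ((x : eis) - omr) * ((x : eis) - omr ^ 2) := by
      refine ⟨(t : eis), ?_⟩
      have h4 := congrArg (fun s : ℤ => (s : eis)) ht
      push_cast at h4
      linear_combination h4 - (x : eis) * omr_sq + omr_cube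
    have key : ∀ y z : ℤ, (z = 1 ∨ z = -1) → ¬ ((p : ℕ) : eis) ∣ (y : eis) + z * omr := by
      rintro y z hz ⟨s, hs⟩
      obtain ⟨c, d, rfl⟩ := ez_ex s
      have h5 : ez y z = ez (p : ℤ) 0 * ez c d := by
        rw [ez_int]
        exact_mod_cast hs
      rw [ez_mul] at h5
      obtain ⟨-, h6⟩ := ez_inj h5
      have h7 : (p : ℤ) ∣ z := ⟨d, by rw [h6]; ring⟩
      have h8 : (p : ℤ) ∣ 1 := by
        rcases hz with rfl | rfl
        · exact h7
        · exact (dvd_neg.1 h7)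
      have h9 : p ∣ 1 := by exact_mod_cast h8
      exact hp.one_lt.ne' (Nat.dvd_one.1 h9)
    rcases hpr.dvd_or_dvd h2 with h4 | h4
    · refine key x (-1) (Or.inr rfl) ?_
      convert h4 using 1
      push_cast; ring
    · refine key (x + 1) 1 (Or.inl rfl) ?_
      convert h4 using 1
      push_cast
      linear_combination omr_sq
  rw [← irreducible_iff_prime, irreducible_iff, not_and_or] at hnp
  rcases hnp with h | h
  · exact absurd (nat_not_unit hp) h
  push Not at h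
  obtain ⟨α, β, hab, hα, hβ⟩ := h
  obtain ⟨m, hm⟩ := norm_int α
  obtain ⟨n, hn⟩ := norm_int β
  have h1 := norm_prod hm hn hab.symm
  rw [isUnit_iff', hm] at hα
  rw [isUnit_iff', hn] at hβ
  have hmp : m = p := by
    have h2 : m ∣ p ^ 2 := Dvd.intro _ h1
    rcases (Nat.dvd_prime_pow hp).1 h2 with ⟨i, hi, rfl⟩
    have h4 : i = 0 ∨ i = 1 ∨ i = 2 := by omega
    rcases h4 with rfl | rfl | rfl
    · exfalso; apply hα; simp
    · exact pow_one p
    · exfalso
      have h5 : p ^ 2 * n = p ^ 2 * 1 := by rw [h1, mul_one]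
      have h6 := Nat.eq_of_mul_eq_mul_left (pow_pos hp.pos 2) h5
      apply hβ
      rw [h6]
      simp
  subst hmp
  -- coprime to `2 √-3`
  have hcj := norm_cj α hm
  have hc : IsCoprime α (2 * la) := by
    have h6 : IsCoprime ((m : ℕ) : eis) ((6 : ℕ) : eis) := by
      have h2 : Nat.Coprime m 6 := by
        have e6 : (6 : ℕ) = 2 * 3 := rfl
        rw [e6, Nat.coprime_mul_iff_right]
        constructor
        · exact (Nat.coprime_primes hp Nat.prime_two).2 (by omega)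
        · exact (Nat.coprime_primes hp Nat.prime_three).2 (by omega)
      have h4 : IsCoprime (m : ℤ) (6 : ℕ) := Nat.isCoprime_iff_coprime.2 h2
      obtain ⟨s, t, hst⟩ := h4
      refine ⟨(s : eis), (t : eis), ?_⟩
      have := congrArg (fun r : ℤ => (r : eis)) hst
      push_cast at this ⊢
      exact this
    rw [← hcj] at h6
    have h7 : IsCoprime α ((6 : ℕ) : eis) := h6.of_mul_left_left
    have h8 : (2 * la : eis) ∣ ((6 : ℕ) : eis) := by
      refine ⟨-la, ?_⟩
      push_cast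
      linear_combination 2 * la_sq
    exact h7.of_isCoprime_of_dvd_right h8
  obtain ⟨u, hu, hu'⟩ := cop_two_la hc
  obtain ⟨w, hw⟩ := hu.exists_right_inv
  have hwu : IsUnit w := IsUnit.of_mul_eq_one u (by rw [mul_comm]; exact hw)
  refine ⟨w * α, ?_, ?_⟩
  · have hwcj : w * cj w = 1 := by
      apply coe_inj'
      rw [cj_mul_coe, (isUnit_iff' w).1 hwu]
      simp
    rw [cj_mul]
    linear_combination hcj + (α * cj α) * hwcj
  · have := (sp (2 * la) : Ideal eis).mul_mem_left w hu'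
    rwa [mul_sub, mul_comm w u, hw] at this

lemma prime_of_norm {p : ℕ} (hp : p.Prime) {α : eis} (h : α * cj α = (p : eis)) : Prime α := by
  have hn := norm_of_cj h
  rw [← irreducible_iff_prime]
  refine ⟨?_, fun a b hab => ?_⟩
  · rw [isUnit_iff', hn]
    exact_mod_cast hp.one_lt.ne'
  obtain ⟨m, hm⟩ := norm_int a
  obtain ⟨n, hn'⟩ := norm_int b
  have h1 : m * n = p := by
    have h2 := congrArg (fun t : eis => Complex.normSq (t : ℂ)) hab
    push_cast at h2
    rw [Complex.normSq_mul, hm, hn', hn] at h2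
    exact_mod_cast h2.symm
  rw [isUnit_iff', isUnit_iff', hm, hn']
  rcases (Nat.dvd_prime hp).1 (Dvd.intro _ h1) with rfl | rfl
  · left; simp
  · right
    have h5 : m * n = m * 1 := by rw [h1, mul_one]
    have h6 := Nat.eq_of_mul_eq_mul_left hp.pos h5
    rw [h6]
    simp


end Pool.Agent.L0h80.F3
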