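import Pool.Agent.L0h86.F3.Bv
import Pool.Agent.L0h80.F3.Pr0

/-!
# The second family: conjugation, and the properties of the generators
-/

set_option autoImplicit false
set_option linter.unusedSectionVars false

namespace Pool.Agent.L0h80.F3

open H667R3 Pool.Agent.W192.HK Pool.Agent.TH936.CM
open Pool.Agent.TH936.PU hiding pf
open Pool.Agent.Y696 Pool.Agent.Y715.T.Lat
open Pool.Agent.L0h86.F3
open Pool.Agent.L0h4.T3 (cj_cj cj_mul cj_pow cj_one cj_sub dvd_cj cj_two cj_nat)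
open Pool.Agent.Y698.SG (ix)

/-! ### conjugation -/

lemma cj_add (x y : eis) : cj (x + y) = cj x + cj y := map_add cjh x y

lemma cj_neg (x : eis) : cj (-x) = -cj x := map_neg cjh x

lemma cj_ez (a b : ℤ) : cj (ez a b) = ez (a - b) (-b) := by
  apply coe_inj'
  rw [cj_coe, ez_coe, ez_coe, map_add, map_mul, conj_om, map_intCast, map_intCast]
  push_cast
  linear_combination (b : ℂ) * om_sq

lemma cj_la : cj la = -la := by
  unfold la
  rw [cj_ez]
  unfold ez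
  push_cast
  ring

lemma rho_cj (r : eis) : rho (cj r) = F4.cj (rho r) := by
  obtain ⟨a, b, rfl⟩ := ez_ex r
  rw [cj_ez, rho_ez, rho_ez]
  have h : ∀ a b : ZMod 2, (⟨a - b, -b⟩ : F4) = F4.cj ⟨a, b⟩ := by decide
  rw [← h]
  push_cast
  rfl

lemma N1_cj {x : eis} (h : N1 x) : N1 (cj x) := by
  obtain ⟨u, rfl⟩ := h
  refine ⟨-cj u, ?_⟩
  rw [cj_add, cj_one, cj_mul, cj_mul, cj_two, cj_la]
  ring

lemma bt_cj {x : eis} (h : N1 x) : bt (cj x) = F4.cj (bt x) := by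
  obtain ⟨u, rfl⟩ := h
  have e1 : (1 + 2 * la * u : eis) = 1 + 2 * (la * u) := by ring
  rw [e1, cj_add, cj_one, cj_mul, cj_two, bt_eq, bt_eq, rho_cj]

lemma cj_mem {ϖ x : eis} : cj x ∈ sp (cj ϖ) ↔ x ∈ sp ϖ := by
  have h1 : ∀ ϖ x : eis, x ∈ sp ϖ → cj x ∈ sp (cj ϖ) := by
    intro ϖ x h
    rw [Ideal.mem_span_singleton'] at h ⊢
    obtain ⟨c, hc⟩ := h
    exact ⟨cj c, by rw [← cj_mul, hc]⟩
  refine ⟨fun h => ?_, h1 ϖ x⟩
  have := h1 _ _ h
  rwa [cj_cj, cj_cj] at this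

lemma sy_cj (ϖ x : eis) : sy (cj ϖ) (cj x) = sy ϖ x := by
  classical
  have h1 : ∀ ϖ x : eis, IsSquare (Ideal.Quotient.mk (sp ϖ) x) →
      IsSquare (Ideal.Quotient.mk (sp (cj ϖ)) (cj x)) := by
    rintro ϖ x ⟨y, hy⟩
    obtain ⟨y, rfl⟩ := Ideal.Quotient.mk_surjective y
    refine ⟨Ideal.Quotient.mk _ (cj y), ?_⟩
    rw [← map_mul, Ideal.Quotient.eq] at hy ⊢
    rw [← cj_mul, ← cj_sub, cj_mem]
    exact hy
  have h2 : IsSquare (Ideal.Quotient.mk (sp (cj ϖ)) (cj x)) ↔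
      IsSquare (Ideal.Quotient.mk (sp ϖ) x) := by
    refine ⟨fun h => ?_, h1 ϖ x⟩
    have := h1 _ _ h
    rwa [cj_cj, cj_cj] at this
  unfold sy
  simp only [cj_mem, h2]

/-! ### the norm -/

/-- the norm -/
noncomputable def nE (x : eis) : ℕ := Nat.card (eis ⧸ sp x)

lemma nE_cj (x : eis) : ((nE x : ℕ) : eis) = x * cj x := by
  apply coe_inj'
  have h1 := card_quot x
  rw [cj_mul_coe, ← h1]
  unfold nE
  push_cast
  rfl

lemma nE_of {x : eis} {n : ℕ} (h : x * cj x = (n : eis)) : nE x = n := by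
  have h1 := nE_cj x
  rw [h] at h1
  have h2 : (nE x : ℤ) = n := by
    have h3 : ez (nE x : ℤ) 0 = ez (n : ℤ) 0 := by
      rw [ez_int, ez_int]
      exact_mod_cast h1
    exact (ez_inj h3).1
  exact_mod_cast h2

lemma nE_nat (n : ℕ) : nE (n : eis) = n ^ 2 := by
  apply nE_of
  rw [cj_nat]
  push_cast
  ring

/-! ### the generators -/

lemma N1_mul {x y : eis} (h : N1 x) (h' : N1 y) : N1 (x * y) := by
  obtain ⟨u, rfl⟩ := h
  obtain ⟨w, rfl⟩ := h'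
  exact ⟨u + w + 2 * la * u * w, by ring⟩

lemma bt_mul {x y : eis} (h : N1 x) (h' : N1 y) : bt (x * y) = bt x + bt y := by
  obtain ⟨u, rfl⟩ := h
  obtain ⟨w, rfl⟩ := h'
  have e1 : (1 + 2 * la * u : eis) * (1 + 2 * la * w) =
      1 + 2 * (la * u + la * w + 2 * (la * u * (la * w))) := by ring
  have e2 : (1 + 2 * la * u : eis) = 1 + 2 * (la * u) := by ring
  have e3 : (1 + 2 * la * w : eis) = 1 + 2 * (la * w) := by ring
  rw [e1, e2, e3, bt_eq, bt_eq, bt_eq, map_add, map_add, map_mul rho 2, map_ofNat]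
  have h2 : (2 : F4) = 0 := by decide
  rw [h2, zero_mul, add_zero]

lemma N1_prod {ι : Type} {S : Finset ι} {f : ι → eis} (h : ∀ i ∈ S, N1 (f i)) :
    N1 (∏ i ∈ S, f i) ∧ bt (∏ i ∈ S, f i) = ∑ i ∈ S, bt (f i) := by
  classical
  induction S using Finset.induction_on with
  | empty =>
    rw [Finset.prod_empty, Finset.sum_empty]
    refine ⟨⟨0, by ring⟩, ?_⟩
    have h1 := bt_eq 0
    rw [mul_zero, add_zero, map_zero] at h1
    exact h1
  | insert q S hq ih =>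
    obtain ⟨h1, h2⟩ := ih fun p hp => h p (Finset.mem_insert_of_mem hp)
    have h3 := h q (Finset.mem_insert_self _ _)
    rw [Finset.prod_insert hq, Finset.sum_insert hq]
    exact ⟨N1_mul h3 h1, by rw [bt_mul h3 h1, h2]⟩

lemma N1_inert {q : ℕ} (h : InQ q) : N1 (-(q : eis)) := by
  have h1 := h.odd
  have h2 := h.m3
  refine ⟨la * ((q + 1) / 6 : ℕ), ?_⟩
  have h3 : q + 1 = 6 * ((q + 1) / 6) := by omega
  have h4 : ((q : ℕ) : eis) + 1 = 6 * (((q + 1) / 6 : ℕ) : eis) := by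
    have := congrArg (fun n : ℕ => (n : eis)) h3
    push_cast at this
    exact this
  linear_combination -h4 - 2 * (((q + 1) / 6 : ℕ) : eis) * la_sq

lemma PX_inert {q : ℕ} (h : InQ q) : PX (-(q : eis)) :=
  ⟨(inert_prime h.pr h.m3).neg, N1_inert h⟩

section
variable {Q P : Finset ℕ} {ϖ : ℕ → eis}

lemma pf_Q {q : ℕ} (hq : q ∈ Q) (b : Bool) : pf Q ϖ (q, b) = -(q : eis) := if_pos hq

lemma pf_f {p : ℕ} (hp : p ∉ Q) : pf Q ϖ (p, false) = ϖ p := by
  unfold pf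
  rw [if_neg hp]
  rfl

lemma pf_t {p : ℕ} (hp : p ∉ Q) : pf Q ϖ (p, true) = cj (ϖ p) := by
  unfold pf
  rw [if_neg hp]
  rfl

lemma mem_ix {i : ℕ × Bool} : i ∈ ix Q P ↔
    (i.2 = false ∧ i.1 ∈ Q) ∨ i.1 ∈ P := by
  unfold ix
  rw [Finset.mem_union, Finset.mem_product, Finset.mem_product, Finset.mem_union,
    Finset.mem_singleton, Finset.mem_singleton]
  rcases i with ⟨a, b⟩
  cases b <;> simp

lemma prod_ix {M : Type*} [CommMonoid M] (hd : Disjoint Q P) (f : ℕ × Bool → M) :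
    ∏ i ∈ ix Q P, f i = (∏ q ∈ Q, f (q, false)) * ∏ p ∈ P, (f (p, false) * f (p, true)) := by
  unfold ix
  rw [Finset.prod_union, Finset.prod_product, Finset.prod_product]
  · simp only [Finset.prod_singleton]
    rw [Finset.prod_union hd, Finset.prod_mul_distrib, mul_assoc]
  · rw [Finset.disjoint_left]
    rintro ⟨a, b⟩ h1 h2
    rw [Finset.mem_product, Finset.mem_singleton] at h1 h2
    have h3 : b = false := h1.2
    have h4 : b = true := h2.2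
    rw [h3] at h4
    exact Bool.noConfusion h4

lemma disj (hQ : ∀ q ∈ Q, InQ q) (hP : ∀ p ∈ P, SpQ p) : Disjoint Q P := by
  rw [Finset.disjoint_left]
  intro q h1 h2
  have := (hQ q h1).m3
  have := (hP q h2).m3
  omega

/-- the cases -/
lemma ix_cases (h : Dt Q P ϖ) {i : ℕ × Bool} (hi : i ∈ ix Q P) :
    (i.1 ∈ Q ∧ i.2 = false ∧ pf Q ϖ i = -(i.1 : eis)) ∨
    (i.1 ∈ P ∧ i.2 = false ∧ pf Q ϖ i = ϖ i.1) ∨
    (i.1 ∈ P ∧ i.2 = true ∧ pf Q ϖ i = cj (ϖ i.1)) := by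
  have hd := Finset.disjoint_left.1 (disj h.q h.p)
  rcases i with ⟨a, b⟩
  rcases mem_ix.1 hi with ⟨hb, ha⟩ | ha
  · exact Or.inl ⟨ha, hb, pf_Q ha b⟩
  · have hq : a ∉ Q := fun h1 => hd h1 ha
    cases b
    · exact Or.inr (Or.inl ⟨ha, rfl, pf_f hq⟩)
    · exact Or.inr (Or.inr ⟨ha, rfl, pf_t hq⟩)

lemma ix_prime (h : Dt Q P ϖ) {i : ℕ × Bool} (hi : i ∈ ix Q P) : i.1.Prime := by
  rcases ix_cases h hi with ⟨h1, -, -⟩ | ⟨h1, -, -⟩ | ⟨h1, -, -⟩
  · exact (h.q _ h1).pr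
  · exact (h.p _ h1).pr
  · exact (h.p _ h1).pr

lemma ix_dvd (h : Dt Q P ϖ) {i : ℕ × Bool} (hi : i ∈ ix Q P) : pf Q ϖ i ∣ (i.1 : eis) := by
  rcases ix_cases h hi with ⟨h1, -, h2⟩ | ⟨h1, -, h2⟩ | ⟨h1, -, h2⟩ <;> rw [h2]
  · exact ⟨-1, by ring⟩
  · rw [← h.nm _ h1]
    exact Dvd.intro _ rfl
  · rw [← h.nm _ h1]
    exact Dvd.intro_left _ rfl

lemma ix_PX (h : Dt Q P ϖ) {i : ℕ × Bool} (hi : i ∈ ix Q P) : PX (pf Q ϖ i) := by
  rcases ix_cases h hi with ⟨h1, -, h2⟩ | ⟨h1, -, h2⟩ | ⟨h1, -, h2⟩ <;> rw [h2]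
  · exact PX_inert (h.q _ h1)
  · exact ⟨prime_of_norm (h.p _ h1).pr (h.nm _ h1), h.n1 _ h1⟩
  · refine ⟨prime_of_norm (h.p _ h1).pr ?_, N1_cj (h.n1 _ h1)⟩
    rw [cj_cj, mul_comm]
    exact h.nm _ h1

end

/-- a prime element of degree one does not divide its conjugate -/
lemma not_dvd_cj {p : ℕ} (hp : p.Prime) (h3 : p % 3 = 1) {x : eis} (h : x * cj x = (p : eis)) :
    ¬ x ∣ cj x := by
  intro hd
  obtain ⟨a, b, rfl⟩ := ez_ex x
  have hn : a ^ 2 - a * b + b ^ 2 = (p : ℤ) := by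
    rw [cj_ez, ez_mul] at h
    have h1 : ez (p : ℤ) 0 = (p : eis) := by
      rw [ez_int]
      norm_cast
    rw [← h1] at h
    have := (ez_inj h).1
    linarith
  -- the trace
  have h1 : ez a b ∣ ez (2 * a - b) 0 := by
    have e : ez (2 * a - b) 0 = ez a b + cj (ez a b) := by
      rw [cj_ez, ez_add]
      congr 1 <;> ring
    rw [e]
    exact dvd_add dvd_rfl hd
  obtain ⟨y, hy⟩ := h1
  have h2 : (p : ℤ) ∣ (2 * a - b) ^ 2 := by
    have h4 := congrArg (fun z : eis => z * cj z) hy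
    simp only [cj_mul] at h4
    have h5 : ez (2 * a - b) 0 * cj (ez (2 * a - b) 0) = (p : eis) * ((nE y : ℕ) : eis) := by
      rw [h4, nE_cj, ← h]
      ring
    rw [cj_ez, ez_mul] at h5
    have h6 : (p : eis) * ((nE y : ℕ) : eis) = ez ((p : ℤ) * (nE y : ℤ)) 0 := by
      rw [ez_int]
      push_cast
      ring
    rw [h6] at h5
    have h7 := (ez_inj h5).1
    exact ⟨(nE y : ℤ), by linarith⟩
  have hpI : Prime (p : ℤ) := Nat.prime_iff_prime_int.1 hp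
  have h4 := hpI.dvd_of_dvd_pow h2
  have hp7 : 4 < p := by
    have := hp.two_le
    by_contra hc
    have : p = 2 ∨ p = 3 ∨ p = 4 := by omega
    rcases this with rfl | rfl | rfl
    · omega
    · omega
    · revert hp
      norm_num
  have h5 : (p : ℤ) ∣ 3 * b ^ 2 := by
    have e : 3 * b ^ 2 = 4 * (a ^ 2 - a * b + b ^ 2) - (2 * a - b) ^ 2 := by ring
    rw [e, hn]
    exact dvd_sub (Dvd.intro_left _ rfl) h2
  have h6 : (p : ℤ) ∣ b := by
    rcases hpI.dvd_or_dvd h5 with h7 | h7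
    · exfalso
      have h8 : p ∣ 3 := by exact_mod_cast h7
      have := Nat.le_of_dvd (by norm_num) h8
      omega
    · exact hpI.dvd_of_dvd_pow h7
  obtain ⟨s, hs⟩ := h4
  obtain ⟨t, ht⟩ := h6
  have h8 : (p : ℤ) * (p * (s ^ 2 + 3 * t ^ 2)) = p * 4 := by
    have e : (2 * a - b) ^ 2 + 3 * b ^ 2 = 4 * (a ^ 2 - a * b + b ^ 2) := by ring
    rw [hn, hs] at e
    linear_combination e - 3 * (b + p * t) * ht
  have hp0 : (p : ℤ) ≠ 0 := by exact_mod_cast hp.ne_zero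
  have h9 := mul_left_cancel₀ hp0 h8
  have h10 : (p : ℤ) ∣ 4 := ⟨_, h9.symm⟩
  have h11 := Int.le_of_dvd (by norm_num) h10
  have : (p : ℤ) > 4 := by exact_mod_cast hp7
  linarith

section
variable {Q P : Finset ℕ} {ϖ : ℕ → eis}

lemma fx (h : Dt Q P ϖ) : FX (ix Q P) (pf Q ϖ) := by
  refine ⟨fun i hi => ix_PX h hi, ?_⟩
  intro i hi j hj hij hmem
  rw [Ideal.mem_span_singleton] at hmem
  have hj1 := (ix_PX h hj).pr
  by_cases h1 : i.1 = j.1
  · have key : ∀ p ∈ P, ¬ ϖ p ∣ cj (ϖ p) := fun p hp => not_dvd_cj (h.p p hp).pr (h.p p hp).m3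
      (h.nm p hp)
    have hd := Finset.disjoint_left.1 (disj h.q h.p)
    have h2 : i.2 ≠ j.2 := fun h2 => hij (Prod.ext h1 h2)
    rcases ix_cases h hi with ⟨a1, a2, a3⟩ | ⟨a1, a2, a3⟩ | ⟨a1, a2, a3⟩ <;>
      rcases ix_cases h hj with ⟨b1, b2, b3⟩ | ⟨b1, b2, b3⟩ | ⟨b1, b2, b3⟩
    · exact h2 (a2.trans b2.symm)
    · exact h2 (a2.trans b2.symm)
    · rw [h1] at a1
      exact hd a1 b1
    · exact h2 (a2.trans b2.symm)
    · exact h2 (a2.trans b2.symm)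
    · rw [a3, b3, h1] at hmem
      have := dvd_cj hmem
      rw [cj_cj] at this
      exact key _ b1 this
    · rw [h1] at a1
      exact hd b1 a1
    · rw [a3, b3, h1] at hmem
      exact key _ b1 hmem
    · exact h2 (a2.trans b2.symm)
  · have h2 : Nat.Coprime i.1 j.1 := (Nat.coprime_primes (ix_prime h hi) (ix_prime h hj)).2 h1
    have h3 : IsCoprime (((i.1 : ℕ) : ℤ)) (((j.1 : ℕ) : ℤ)) := Nat.isCoprime_iff_coprime.2 h2
    obtain ⟨a, b, hab⟩ := h3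
    have h4 : (a : eis) * ((i.1 : ℕ) : eis) + (b : eis) * ((j.1 : ℕ) : eis) = 1 := by
      have := congrArg (fun n : ℤ => (n : eis)) hab
      push_cast at this
      exact this
    apply hj1.not_isUnit
    apply isUnit_of_dvd_one
    rw [← h4]
    exact dvd_add (Dvd.dvd.mul_left (hmem.trans (ix_dvd h hi)) _)
      (Dvd.dvd.mul_left (ix_dvd h hj) _)

lemma prod_pf (h : Dt Q P ϖ) {D : ℕ} (hD : D = ∏ q ∈ Q ∪ P, q) :
    (∏ i ∈ ix Q P, pf Q ϖ i = (D : eis) ∧ D % 3 = 1) ∨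
      (∏ i ∈ ix Q P, pf Q ϖ i = -(D : eis) ∧ D % 3 = 2) := by
  have hdj := disj h.q h.p
  have hd := Finset.disjoint_left.1 hdj
  have h1 : ∏ i ∈ ix Q P, pf Q ϖ i = (-1) ^ Q.card * (D : eis) := by
    rw [prod_ix hdj, hD, Finset.prod_union hdj]
    have e1 : ∏ q ∈ Q, pf Q ϖ (q, false) = (-1) ^ Q.card * ∏ q ∈ Q, (q : eis) := by
      rw [← Finset.prod_const, ← Finset.prod_mul_distrib]
      exact Finset.prod_congr rfl fun q hq => by rw [pf_Q hq]; ring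
    have e2 : ∏ p ∈ P, (pf Q ϖ (p, false) * pf Q ϖ (p, true)) = ∏ p ∈ P, (p : eis) := by
      refine Finset.prod_congr rfl fun p hp => ?_
      have hq : p ∉ Q := fun h1 => hd h1 hp
      rw [pf_f hq, pf_t hq, h.nm p hp]
    rw [e1, e2]
    push_cast
    ring
  have h2 : ((D : ℕ) : ZMod 3) = (-1) ^ Q.card := by
    rw [hD, Finset.prod_union hdj]
    push_cast
    have e1 : ∏ q ∈ Q, ((q : ℕ) : ZMod 3) = (-1) ^ Q.card := by
      rw [← Finset.prod_const]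
      refine Finset.prod_congr rfl fun q hq => ?_
      have h3 := (h.q q hq).m3
      have h4 : ((q : ℕ) : ZMod 3) = ((2 : ℕ) : ZMod 3) := by
        rw [ZMod.natCast_eq_natCast_iff]
        exact h3
      rw [h4]
      decide
    have e2 : ∏ p ∈ P, ((p : ℕ) : ZMod 3) = 1 := by
      refine Finset.prod_eq_one fun p hp => ?_
      have h3 := (h.p p hp).m3
      have h4 : ((p : ℕ) : ZMod 3) = ((1 : ℕ) : ZMod 3) := by
        rw [ZMod.natCast_eq_natCast_iff]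
        exact h3
      rw [h4, Nat.cast_one]
    rw [e1, e2, mul_one]
  rcases Nat.even_or_odd Q.card with he | he
  · left
    rw [he.neg_one_pow] at h1 h2
    refine ⟨by rw [h1, one_mul], ?_⟩
    have h4 : ((D : ℕ) : ZMod 3) = ((1 : ℕ) : ZMod 3) := by rw [h2, Nat.cast_one]
    rw [ZMod.natCast_eq_natCast_iff] at h4
    exact h4
  · right
    rw [he.neg_one_pow] at h1 h2
    refine ⟨by rw [h1]; ring, ?_⟩
    have h4 : ((D : ℕ) : ZMod 3) = ((2 : ℕ) : ZMod 3) := by rw [h2]; decide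
    rw [ZMod.natCast_eq_natCast_iff] at h4
    exact h4

lemma sum_bt (h : Dt Q P ϖ) {D : ℕ} (hD : D = ∏ q ∈ Q ∪ P, q) (h4 : D % 4 = 1) :
    ∑ i ∈ ix Q P, bt (pf Q ϖ i) = if D % 3 = 1 then 0 else 1 := by
  have h1 := (N1_prod (S := ix Q P) (f := pf Q ϖ) fun i hi => (ix_PX h hi).n1).2
  rw [← h1]
  have h5 : D = 1 + 4 * (D / 4) := by omega
  have h6 : ((D : ℕ) : eis) = 1 + 4 * ((D / 4 : ℕ) : eis) := by
    have := congrArg (fun n : ℕ => (n : eis)) h5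
    push_cast at this
    exact this
  have h20 : (2 : F4) = 0 := by decide
  rcases prod_pf h hD with ⟨h2, h3⟩ | ⟨h2, h3⟩
  · rw [h2, if_pos h3, h6]
    have e : (1 + 4 * ((D / 4 : ℕ) : eis)) = 1 + 2 * (2 * ((D / 4 : ℕ) : eis)) := by ring
    rw [e, bt_eq, map_mul, map_ofNat, h20, zero_mul]
  · rw [h2, if_neg (by omega), h6]
    have e : (-(1 + 4 * ((D / 4 : ℕ) : eis))) = 1 + 2 * (-1 - 2 * ((D / 4 : ℕ) : eis)) := by ring
    rw [e, bt_eq, map_sub, map_neg, map_one, map_mul, map_ofNat, h20, zero_mul, sub_zero]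
    decide

end

end Pool.Agent.L0h80.F3
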